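import Pool.Agent.H82Z.Kak.St

set_option autoImplicit false

namespace Pool.Agent.H787Z.Amp

open Pool.Agent.H82Z.Kak

section
variable {G : Type} [AddCommGroup G]

omit [AddCommGroup G] in
theorem M_nonneg (f : A G) : 0 ≤ M f := ms_nonneg _

theorem rel_mono {f : A G} {J K : Ideal (A G)} {x y : ℝ} (h : Rel f J x) (hJ : J ≤ K)
    (hx : x ≤ y) : Rel f K y := by
  obtain ⟨α, β, h1, h2, h3⟩ := h
  exact ⟨α, β, h1, hJ h2, h3.trans (mul_le_mul_of_nonneg_right hx (M_nonneg f))⟩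

theorem rel_mul_left {f : A G} {J : Ideal (A G)} {x : ℝ} (g : A G) (h : Rel f J x) :
    Rel (g * f) J x := by
  obtain ⟨α, β, h1, h2, h3⟩ := h
  refine ⟨g * α, g * β, by rw [h1, mul_add], J.mul_mem_left g h2, ?_⟩
  rw [M_mul, M_mul]
  nlinarith [mul_le_mul_of_nonneg_left h3 (M_nonneg g)]

def RI (J : Ideal (A G)) (x : ℝ) : Ideal (A G) where
  carrier := {f | Rel f J x}
  zero_mem' := ⟨0, 0, by simp, J.zero_mem, by simp [M]⟩
  add_mem' := by
    rintro f g ⟨α, β, h1, h2, h3⟩ ⟨α', β', h1', h2', h3'⟩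
    refine ⟨α + α', β + β', by rw [h1, h1']; ring, J.add_mem h2 h2', ?_⟩
    rw [M_add, M_add]; linarith
  smul_mem' := fun g _ h => rel_mul_left g h

theorem rel_of_mem {f : A G} {J : Ideal (A G)} {x : ℝ} (h : f ∈ J) (hx : 0 ≤ x) : Rel f J x :=
  ⟨f, 0, by simp, h, by
    have : M (0 : A G) = 0 := by simp [M]
    rw [this]; exact mul_nonneg hx (M_nonneg f)⟩

theorem rel_pow {f : A G} {J : Ideal (A G)} {x : ℝ} (h : Rel f J x) (n : ℕ) :
    Rel (f ^ n) J (x ^ n) := by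
  obtain ⟨α, β, h1, h2, h3⟩ := h
  induction n with
  | zero => exact ⟨0, 1, by simp, J.zero_mem, by simp⟩
  | succ n ih =>
    obtain ⟨α', β', h1', h2', h3'⟩ := ih
    refine ⟨α' * f + β' * α, β' * β, ?_, J.add_mem (J.mul_mem_right _ h2') (J.mul_mem_left _ h2),
      ?_⟩
    · rw [pow_succ, h1', add_mul, add_assoc, ← mul_add β', ← h1]
    · rw [M_mul, pow_succ f, M_mul]
      calc M β' * M β ≤ (x ^ n * M (f ^ n)) * (x * M f) :=
            mul_le_mul h3' h3 (M_nonneg _) ((M_nonneg _).trans h3')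
        _ = _ := by ring

theorem rel_mul {f g : A G} {J K : Ideal (A G)} {x y : ℝ} (h : Rel f J x) (h' : Rel g K y) :
    Rel (f * g) (J * K) (x + y) := by
  obtain ⟨α, β, h1, h2, h3⟩ := h
  obtain ⟨α', β', h1', h2', h3'⟩ := h'
  refine ⟨α * α', α * β' + β * g, ?_, Ideal.mul_mem_mul h2 h2', ?_⟩
  · rw [h1, add_mul, ← add_assoc, ← mul_add, ← h1']
  · have h4 : M α ≤ M f := by rw [h1, M_add]; linarith [M_nonneg β]
    rw [M_add, M_mul, M_mul, M_mul]
    have h5 := mul_le_mul h4 h3' (M_nonneg _) (M_nonneg _)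
    have h6 := mul_le_mul_of_nonneg_right h3 (M_nonneg g)
    nlinarith

theorem rel_trans {f : A G} {J K : Ideal (A G)} {x y : ℝ} (h : Rel f J x) (hy : 0 ≤ y)
    (h' : J ≤ RI K y) : Rel f K (x + y) := by
  obtain ⟨α, β, h1, h2, h3⟩ := h
  obtain ⟨α', β', h1', h2', h3'⟩ := h' h2
  refine ⟨α', β' + β, by rw [h1, h1', add_assoc], h2', ?_⟩
  have h4 : M α ≤ M f := by rw [h1, M_add]; linarith [M_nonneg β]
  rw [M_add]
  nlinarith [mul_le_mul_of_nonneg_left h4 hy]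

theorem dl_mul (u v : G) : (dl u : A G) * dl v = dl (u + v) := by
  rw [AddMonoidAlgebra.single_mul_single, mul_one]

end

theorem amp0 (c ε : ℝ) (hc : 0 < c) (hε : 0 < ε) : ∃ L : ℕ, 0 < L ∧
    ∀ (d : ℕ) (f : A (E d)) (J : Ideal (A (E d))), Rel f J (1 - c) → Rel (f ^ L) J ε := by
  have h1 : 0 < min c (1 / 2) := lt_min hc (by norm_num)
  obtain ⟨L, hL⟩ := exists_pow_lt_of_lt_one hε (show 1 - min c (1 / 2) < 1 by linarith)
  refine ⟨L + 1, Nat.succ_pos _, fun d f J h => ?_⟩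
  rw [pow_succ']
  refine rel_mul_left _ (rel_mono (rel_pow (rel_mono h le_rfl ?_) L) le_rfl hL.le)
  linarith [min_le_left c (1 / 2)]

theorem half {d : ℕ} (w : E d) (τ : ℝ) :
    PI w τ * PI w τ ≤ RI (PI ((2 : ℝ) • w) (2 * τ)) (1 / 2) := by
  rw [PI, Ideal.span_mul_span', Ideal.span_le]
  rintro _ ⟨_, ⟨u, hu, rfl⟩, _, ⟨v, hv, rfl⟩, rfl⟩
  refine ⟨1 + dl (u + v), dl u + dl v, ?_, Ideal.subset_span ⟨u + v, ?_, rfl⟩, ?_⟩
  · show (1 + dl u) * (1 + dl v) = _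
    rw [← dl_mul]; ring
  · have : u + v - (2 : ℝ) • w = (u - w) + (v - w) := by rw [two_smul]; abel
    rw [this]
    exact (norm_add_le _ _).trans (by linarith)
  · show _ ≤ 1 / 2 * M ((1 + dl u) * (1 + dl v))
    rw [M_mul, M_add, M_add, M_add, M_dl, M_dl, M_one]; norm_num

theorem ampA (c : ℝ) (hc : 0 < c) (n : ℕ) : ∀ ε : ℝ, 0 < ε → ∃ L : ℕ, 0 < L ∧
    ∀ (d : ℕ) (w : E d) (τ : ℝ) (θ : A (E d)), Rel θ (PI w τ) (1 - c) →
      Rel (θ ^ L) (PI ((2 : ℝ) ^ n • w) (2 ^ n * τ)) ε := by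
  induction n with
  | zero =>
    intro ε hε
    obtain ⟨L, h1, h2⟩ := amp0 c ε hc hε
    exact ⟨L, h1, fun d w τ θ h => by simpa using h2 d θ _ h⟩
  | succ n ih =>
    intro ε hε
    obtain ⟨L1, h1, h2⟩ := ih (1 / 8) (by norm_num)
    obtain ⟨L2, h3, h4⟩ := amp0 (1 / 4) ε (by norm_num) hε
    refine ⟨(L1 + L1) * L2, by positivity, fun d w τ θ h => ?_⟩
    rw [pow_mul, pow_add θ]
    refine h4 d _ _ ?_
    have h5 := rel_trans (rel_mul (h2 d w τ θ h) (h2 d w τ θ h)) (by norm_num) (half _ _)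
    rw [smul_smul, ← mul_assoc, ← pow_succ'] at h5
    exact rel_mono h5 le_rfl (by norm_num)

theorem QI_mul {d : ℕ} (w : E d) (τ : ℝ) (hτ : 0 ≤ τ) (a : ℕ) :
    QI w τ a * PI ((2 : ℝ) ^ a • w) (2 ^ a * τ) ≤ QI w τ (a + 1) := by
  rw [QI, PI, Ideal.span_mul_span', Ideal.span_le]
  rintro _ ⟨_, ⟨x, hx, rfl⟩, _, ⟨u, hu, rfl⟩, rfl⟩
  have h0 : (0 : ℝ) ≤ 2 ^ a * τ := by positivity
  refine Ideal.subset_span ⟨fun k => if k < 2 ^ a then x k else x (k - 2 ^ a) + u, ?_, ?_⟩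
  · intro k hk
    by_cases h : k < 2 ^ a
    · simp only [if_pos h]
      refine (hx k h).trans ?_
      rw [pow_succ]; linarith
    · simp only [if_neg h]
      obtain ⟨j, rfl⟩ := Nat.exists_eq_add_of_le (not_lt.1 h)
      rw [Nat.add_sub_cancel_left]
      have hj : j < 2 ^ a := by rw [pow_succ] at hk; omega
      have : x j + u - ((2 ^ a + j : ℕ) : ℝ) • w = (x j - (j : ℝ) • w) + (u - (2 : ℝ) ^ a • w) := by
        push_cast; rw [add_smul]; abel
      rw [this, pow_succ]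
      exact (norm_add_le _ _).trans (by linarith [hx j hj])
  · show (∑ k ∈ Finset.range (2 ^ a), dl (x k)) * (1 + dl u) = _
    rw [pow_succ, mul_two, Finset.sum_range_add, mul_add, mul_one, Finset.sum_mul]
    congr 1
    · exact Finset.sum_congr rfl fun k hk => by simp only [if_pos (Finset.mem_range.1 hk)]
    · refine Finset.sum_congr rfl fun k _ => ?_
      rw [dl_mul]
      simp only [if_neg (show ¬ (2 ^ a + k < 2 ^ a) by omega), Nat.add_sub_cancel_left]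

theorem ampB (c : ℝ) (hc : 0 < c) (a : ℕ) : ∀ ε : ℝ, 0 < ε → ∃ L : ℕ, 0 < L ∧
    ∀ (d : ℕ) (w : E d) (τ : ℝ), 0 ≤ τ → ∀ θ : A (E d), Rel θ (PI w τ) (1 - c) →
      ∀ a' ≤ a, Rel (θ ^ L) (QI w τ a') ε := by
  induction a with
  | zero =>
    intro ε hε
    refine ⟨1, one_pos, fun d w τ hτ θ _ a' ha' => rel_of_mem ?_ hε.le⟩
    obtain rfl : a' = 0 := by omega
    have h1 : (1 : A (E d)) ∈ QI w τ 0 := Ideal.subset_span ⟨fun _ => 0, fun k hk => by
      obtain rfl : k = 0 := by omega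
      simpa using hτ, by simp [AddMonoidAlgebra.one_def]⟩
    simpa using (QI w τ 0).mul_mem_left θ h1
  | succ a ih =>
    intro ε hε
    obtain ⟨L1, h1, h2⟩ := ih (ε / 2) (by positivity)
    obtain ⟨L2, h3, h4⟩ := ampA c hc a (ε / 2) (by positivity)
    refine ⟨L1 + L2, by positivity, fun d w τ hτ θ h a' ha' => ?_⟩
    rw [pow_add]
    rcases Nat.lt_or_eq_of_le ha' with h5 | rfl
    · rw [mul_comm]
      exact rel_mul_left _ (rel_mono (h2 d w τ hτ θ h a' (by omega)) le_rfl (by linarith))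
    · exact rel_mono (rel_mul (h2 d w τ hτ θ h a le_rfl) (h4 d w τ θ h)) (QI_mul w τ hτ a)
        (by linarith)

theorem thm_amp : S_amp := fun c hc a => ampB c hc a (1 / 2) (by norm_num)

end Pool.Agent.H787Z.Amp
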