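import Pool.Agent.H590Z.HC.Defs
import Pool.Agent.H590Z.HC.Seq
import Pool.Agent.H940Z.Help.T6
import Pool.Agent.H435Z.HCBasis

set_option autoImplicit false

namespace Pool.Agent.H590Z.HC

open Finset Filter Topology

namespace T7

theorem summable_div {g : ℤ → ℂ} (hg : Summable fun t : ℤ => ‖g t‖ / (1 + |(t : ℝ)|)) (z : ℂ) :
    Summable fun t : ℤ => ‖g t / (z - t)‖ := by
  refine Summable.of_norm_bounded_eventually (hg.mul_left 2) ?_
  obtain ⟨M, hM⟩ := exists_nat_ge (2 * ‖z‖ + 1)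
  refine Filter.mem_cofinite.2 ((Set.finite_Icc (-(M : ℤ)) M).subset fun t ht => ?_)
  by_contra hcon
  apply ht
  have h1 : (M : ℝ) ≤ |(t : ℝ)| := by
    have : (M : ℤ) ≤ |t| := by
      simp only [Set.mem_Icc, not_and_or, not_le] at hcon
      rcases hcon with h | h
      · exact le_abs.2 (Or.inr (by omega))
      · exact le_abs.2 (Or.inl h.le)
    exact_mod_cast this
  have h2 : |(t : ℝ)| - ‖z‖ ≤ ‖z - t‖ := by
    have := norm_sub_norm_le (t : ℂ) z
    rw [norm_sub_rev] at this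
    simpa using this
  have h3 := norm_nonneg z
  simp only [Set.mem_ofPred_eq, norm_norm, norm_div]
  rw [← mul_div_assoc, div_le_div_iff₀ (by linarith) (by positivity)]
  nlinarith [norm_nonneg (g t)]

theorem mem2_of_summable {k : ℤ → ℂ} (hk : Summable fun t => ‖k t‖) : Memℓp k 2 :=
  Memℓp.of_exponent_ge (q := 1) (memℓp_gen (by simpa using hk)) (by norm_num)

theorem exists_vec (b : HilbertBasis ℤ ℂ H) {k : ℤ → ℂ} (hk : Memℓp k 2) :
    ∃ v : H, ∀ f, inner ℂ v f = ∑' t, k t * inner ℂ (b t) f := by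
  have hm : Memℓp (fun t => star (k t)) 2 := hk.star_mem
  refine ⟨b.repr.symm ⟨fun t => star (k t), hm⟩, fun f => ?_⟩
  rw [← b.tsum_inner_mul_inner]
  congr 1
  funext t
  congr 1
  rw [← inner_conj_symm, ← b.repr_apply_apply, LinearIsometryEquiv.apply_symm_apply]
  simp

theorem exists_coord (b : HilbertBasis ℤ ℂ H) (k : ℤ → ℂ) (a : ℝ) (ha : 0 ≤ a)
    (hk : ∀ S : Finset ℤ, ∑ n ∈ S, ‖k n‖ ^ 2 ≤ a ^ 2) :
    ∃ v : H, ‖v‖ ≤ a ∧ ∀ t, inner ℂ (b t) v = k t := by
  have hm : Memℓp k 2 := memℓp_gen (by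
    simpa using summable_of_sum_le (fun n => by positivity) hk)
  refine ⟨b.repr.symm ⟨k, hm⟩, ?_, fun t => ?_⟩
  · rw [LinearIsometryEquiv.norm_map]
    exact lp.norm_le_of_forall_sum_le (by norm_num) ha (by simpa using hk)
  · rw [← b.repr_apply_apply, LinearIsometryEquiv.apply_symm_apply]

theorem Ch_res {g : ℤ → ℂ} (hg : Summable fun t : ℤ => ‖g t‖ / (1 + |(t : ℝ)|)) (ν z γ : ℂ)
    (hν : ∀ t : ℤ, ν ≠ t) (hz : ∀ t : ℤ, z = t → g t = 0) (hzν : z ≠ ν) :
    Ch (fun t => g t * (γ / (ν - t))) z = γ * (Ch g ν - Ch g z) / (z - ν) := by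
  unfold Ch
  rw [← Summable.tsum_sub (summable_div hg ν).of_norm (summable_div hg z).of_norm, ← tsum_mul_left,
    ← tsum_div_const]
  congr 1
  funext t
  by_cases h : z = t
  · simp [hz t h]
  · have h1 : z - t ≠ 0 := sub_ne_zero.2 h
    have h2 : ν - t ≠ 0 := sub_ne_zero.2 (hν t)
    have h3 : z - ν ≠ 0 := sub_ne_zero.2 hzν
    field_simp
    ring

theorem Ch_self (g : ℤ → ℂ) (ν γ : ℂ) :
    Ch (fun t => g t * (γ / (ν - t))) ν = -(Dv g ν * γ) := by
  unfold Ch Dv
  rw [← tsum_mul_right, ← tsum_neg]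
  congr 1
  funext t
  by_cases h : ν - t = 0
  · simp [h]
  · have h2 : (t : ℂ) - ν ≠ 0 := by rwa [← neg_sub, neg_ne_zero]
    field_simp
    ring

end T7

open T7 in
theorem transfer (N : Set ℤ) (lam g : ℤ → ℂ) (hre : ∀ n, (lam n).re = n) (h0 : (0 : ℤ) ∈ N)
    (hm1 : (-1 : ℤ) ∉ N) (hoff : ∀ n, n ∉ N → lam n = n) (hon : ∀ n ∈ N, n ≠ 0 → (lam n).im ≠ 0)
    (hg0 : ∀ n, n ∉ N → g n = 0) (hg : Summable fun t : ℤ => ‖g t‖ / (1 + |(t : ℝ)|))
    (hz : ∀ n ∈ N, n ≠ 0 → Ch g (lam n) = 0) (hβ : ∀ n, n ∉ N → Ch g n ≠ 0)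
    (hD : ∀ n ∈ N, n ≠ 0 → Dv g (lam n) ≠ 0)
    (hHC : ∀ x y : ℤ → ℂ, Summable (fun n => ‖x n‖ ^ 2) → Summable (fun n => ‖y n‖ ^ 2) →
      (∀ n, n ≠ 0 → dg N lam g x y n = 0) → ∑' n, x n * y n = 0)
    (F V : ℕ → ℤ → ℂ) (a c ε : ℕ → ℝ) (hε : Summable ε) (ha : ∀ l, 0 ≤ a l) (hc : ∀ l, 0 ≤ c l)
    (hF : ∀ l, ∀ S : Finset ℤ, ∑ n ∈ S, ‖F l n‖ ^ 2 ≤ a l ^ 2)
    (hV : ∀ l, ∀ S : Finset ℤ, ∑ n ∈ S, ‖V l n‖ ^ 2 ≤ c l ^ 2)
    (hac : ∀ l, c l * a l ≤ ε l) (hF1 : ∀ l, F l (-1) = 0)
    (h2 : ∀ n, n ≠ 0 → Tendsto (fun L => dg N lam g (fun t => ∑ l ∈ range L, F l t)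
      (fun t => if t = -1 then 1 else 0) n) atTop (𝓝 (if n = -1 then -1 else 0)))
    (h3 : ∀ l, ∀ S : Finset ℤ, 0 ∉ S →
      ∑ n ∈ S, ‖dg N lam g (F l) (fun t => (if t = -1 then 1 else 0) - V l t) n‖ ≤ ε l) :
    ∃ (Λ : Set ℂ) (e' : ℂ → H), IsComplete Λ ∧ IsMinimal Λ ∧ IsBiorthogonal Λ e' ∧
      HereditarilyComplete Λ e' ∧ ¬ LinearSummationBasis Λ e' := by
  classical
  obtain ⟨b, hb1, hb2⟩ := exists_basis
  choose cc hcc0 hcc using hb1
  have hni : ∀ n ∈ N, n ≠ 0 → ∀ t : ℤ, lam n ≠ t := by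
    intro n hn hn0 t h
    apply hon n hn hn0
    rw [h]; simp
  have hγ : ∀ n : ℤ, ∃ γ : ℂ, γ ≠ 0 ∧
      (n ∈ N → n ≠ 0 → ∀ t : ℤ, inner ℂ (b t) (ex (lam n)) = γ / (lam n - t)) := by
    intro n
    by_cases h : n ∈ N ∧ n ≠ 0
    · obtain ⟨γ, h1, h2⟩ := hb2 (lam n) (hni n h.1 h.2)
      exact ⟨γ, h1, fun _ _ => h2⟩
    · exact ⟨1, one_ne_zero, fun h1 h2 => absurd ⟨h1, h2⟩ h⟩
  choose γ hγ0 hγ using hγ
  have hbb : ∀ s t : ℤ, inner ℂ (b s) (b t) = if s = t then 1 else 0 :=
    orthonormal_iff_ite.1 b.orthonormal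
  have hE : ∀ n : ℤ, ∃ E : H, ∀ f, inner ℂ E f =
      if n ∈ N then -(Ch (fun t => g t * inner ℂ (b t) f) (lam n)) / (Dv g (lam n) * γ n)
      else (inner ℂ (b n) f - Ch (fun t => g t * inner ℂ (b t) f) n / Ch g n) / cc n := by
    intro n
    by_cases hn : n ∈ N
    · obtain ⟨v, hv⟩ := exists_vec b (mem2_of_summable
        (k := fun t => g t / (lam n - t) * (-1 / (Dv g (lam n) * γ n)))
        (by simpa only [norm_mul] using (summable_div hg (lam n)).mul_right _))
      refine ⟨v, fun f => ?_⟩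
      rw [if_pos hn, hv, Ch, ← tsum_neg, ← tsum_div_const]
      congr 1
      funext t
      ring
    · obtain ⟨v, hv⟩ := exists_vec b (mem2_of_summable
        (k := fun t => g t / ((n : ℂ) - t) * (1 / Ch g n))
        (by simpa only [norm_mul] using (summable_div hg n).mul_right _))
      refine ⟨(starRingEnd ℂ) (cc n)⁻¹ • (b n - v), fun f => ?_⟩
      rw [if_neg hn, inner_smul_left, inner_sub_left, hv, starRingEnd_self_apply]
      generalize Ch g n = β
      rw [Ch, ← tsum_div_const, mul_comm, ← div_eq_mul_inv]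
      congr 3
      funext t
      ring
  choose E hE using hE
  have hlam : Function.Injective lam := by
    intro m n h
    have := hre m
    rw [h, hre n] at this
    exact_mod_cast this.symm
  have hfl : ∀ n, ⌊(lam n).re⌋ = n := fun n => by rw [hre]; exact Int.floor_intCast n
  have key : ∀ n, n ≠ 0 → ∀ f v : H, inner ℂ (E n) f * inner ℂ v (ex (lam n)) =
      dg N lam g (fun t => inner ℂ (b t) f) (fun t => inner ℂ v (b t)) n := by
    intro n hn0 f v
    rw [hE, dg]
    by_cases hn : n ∈ N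
    · rw [if_pos hn, if_pos hn, ← b.tsum_inner_mul_inner v]
      have : ∑' t, inner ℂ v (b t) * inner ℂ (b t) (ex (lam n)) =
          Ch (fun t => inner ℂ v (b t)) (lam n) * γ n := by
        rw [Ch, ← tsum_mul_right]
        congr 1
        funext t
        rw [hγ n hn hn0]
        ring
      rw [this]
      have := hγ0 n
      have := hD n hn hn0
      field_simp
    · rw [if_neg hn, if_neg hn, hoff n hn, hcc, inner_smul_right]
      have := hcc0 n
      field_simp
  have hbi : ∀ n, n ≠ 0 → ∀ m, m ≠ 0 → inner ℂ (E n) (ex (lam m)) = if m = n then 1 else 0 := by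
    intro n hn0 m hm0
    rw [hE]
    by_cases hm : m ∈ N
    · simp only [hγ m hm hm0]
      by_cases hmn : m = n
      · subst hmn
        rw [if_pos hm, if_pos rfl, Ch_self, neg_neg]
        exact div_self (mul_ne_zero (hD m hm hm0) (hγ0 m))
      · rw [if_neg hmn]
        have hne : lam n ≠ lam m := fun h => hmn (hlam h).symm
        by_cases hn : n ∈ N
        · rw [if_pos hn, Ch_res hg _ _ _ (hni m hm hm0) (fun t h => absurd h (hni n hn hn0 t)) hne,
            hz m hm hm0, hz n hn hn0]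
          simp
        · rw [hoff n hn] at hne
          rw [if_neg hn, Ch_res hg _ _ _ (hni m hm hm0)
            (fun t h => hg0 t (by rw [← Int.cast_injective h]; exact hn)) hne, hz m hm hm0]
          have h1 := hβ n hn
          have h4 : (n : ℂ) - lam m ≠ 0 := sub_ne_zero.2 hne
          have h5 : lam m - n ≠ 0 := sub_ne_zero.2 hne.symm
          rw [div_eq_zero_iff]
          left
          field_simp
          ring
    · have hgx : (fun t => g t * inner ℂ (b t) (ex (lam m))) = fun _ => 0 := by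
        funext t
        rw [hoff m hm, hcc, inner_smul_right, hbb]
        by_cases h : t = m
        · rw [h, hg0 m hm, zero_mul]
        · simp [h]
      have hch : ∀ z, Ch (fun _ => 0) z = 0 := fun z => by simp [Ch]
      rw [hgx]
      simp only [hch]
      by_cases hn : n ∈ N
      · rw [if_pos hn, if_neg (fun h : m = n => hm (h ▸ hn))]; simp
      · rw [if_neg hn, hoff m hm, hcc, inner_smul_right, hbb]
        by_cases h : m = n
        · subst h; simp [hcc0 m]
        · simp [h, Ne.symm h]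
  let Λ : Set ℂ := lam '' {n | n ≠ 0}
  let e' : ℂ → H := fun z => E ⌊z.re⌋
  have he' : ∀ n, e' (lam n) = E n := fun n => by simp only [e', hfl]
  have hBi : IsBiorthogonal Λ e' := by
    rintro _ ⟨n, hn, rfl⟩ _ ⟨m, hm, rfl⟩
    rw [he', hbi n hn m hm]
    simp only [hlam.eq_iff]
  have hHer : HereditarilyComplete Λ e' := by
    intro f
    rw [← Submodule.orthogonal_orthogonal_eq_closure, Submodule.mem_orthogonal]
    intro v hv
    rw [← b.tsum_inner_mul_inner]
    simp only [mul_comm (inner ℂ v (b _))]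
    refine hHC _ _ (b.orthonormal.inner_products_summable f) ?_ fun n hn => ?_
    · simpa only [norm_inner_symm] using b.orthonormal.inner_products_summable v
    · rw [← key n hn]
      have := (Submodule.mem_orthogonal' _ _).1 hv _
        (Submodule.subset_span ⟨lam n, ⟨n, hn, rfl⟩, rfl⟩)
      rwa [inner_smul_right, he'] at this
  refine ⟨Λ, e', ?_, ?_, hBi, hHer, ?_⟩
  · rw [IsComplete, eq_top_iff]
    intro f _
    refine Submodule.topologicalClosure_mono ?_ (hHer f)
    rw [Submodule.span_le]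
    rintro _ ⟨l, hl, rfl⟩
    exact Submodule.smul_mem _ _ (Submodule.subset_span ⟨l, hl, rfl⟩)
  · intro l hl hmem
    have h1 : (Submodule.span ℂ (ex '' (Λ \ {l}))).topologicalClosure ≤ (ℂ ∙ e' l)ᗮ := by
      refine Submodule.topologicalClosure_minimal _ ?_ (Submodule.isClosed_orthogonal _)
      rw [Submodule.span_le]
      rintro _ ⟨m, hm, rfl⟩
      rw [SetLike.mem_coe, Submodule.mem_orthogonal_singleton_iff_inner_right, hBi l hl m hm.1,
        if_neg (show ¬ m = l from hm.2)]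
    have h4 := Submodule.mem_orthogonal_singleton_iff_inner_right.1 (h1 hmem)
    rw [hBi l hl l hl, if_pos rfl] at h4
    exact one_ne_zero h4
  · rintro ⟨en, R, hR, hs⟩
    choose idx hidx0 hidx using fun n => (en n).2
    have hinj : Function.Injective idx := by
      intro m n h
      apply en.injective
      apply Subtype.ext
      rw [← hidx, ← hidx, h]
    choose f hf1 hf2 using fun l => exists_coord b (F l) (a l) (ha l) (hF l)
    choose y hy1 hy2 using fun l => exists_coord b (star (V l)) (c l) (hc l)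
      (by simpa using hV l)
    have hy3 : ∀ l t, inner ℂ (y l) (b t) = V l t := fun l t => by
      rw [← inner_conj_symm, hy2]; simp
    have hu : ∀ t : ℤ, inner ℂ (b (-1)) (b t) = if t = -1 then 1 else 0 := fun t => by
      rw [hbb]; simp only [eq_comm]
    let n0 : ℕ := en.symm ⟨lam (-1), -1, by simp, rfl⟩
    have hn0 : idx n0 = -1 := hlam (by rw [hidx]; simp [n0])
    refine not_summable (fun n => ex (en n)) (fun n => e' (en n)) n0 (b (-1)) f y ε hε
      (fun l => by rw [hf2, hF1]) (fun l => ?_) (fun n => ?_) (fun l M => ?_) R hR hs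
    · exact (mul_le_mul (hy1 l) (hf1 l) (norm_nonneg _) (hc l)).trans (hac l)
    · have h4 := h2 (idx n) (hidx0 n)
      have h5 : (if idx n = -1 then (-1 : ℂ) else 0) = if n = n0 then -1 else 0 := by
        rw [← hn0]; simp only [hinj.eq_iff]
      rw [h5] at h4
      refine h4.congr fun L => ?_
      rw [← sum_mul, ← inner_sum, ← hidx, he', key _ (hidx0 n)]
      simp only [inner_sum, hf2, hu]
    · refine le_trans (le_of_eq ?_) (h3 l ((range M).image idx) (by
        simp only [mem_image, not_exists, not_and]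
        exact fun n _ => hidx0 n))
      rw [sum_image hinj.injOn]
      refine sum_congr rfl fun n _ => ?_
      rw [← hidx, he', key _ (hidx0 n)]
      simp only [inner_sub_left, hf2, hu, hy3]

end Pool.Agent.H590Z.HC
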